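import Pool.Agent.H373Z.Gor.Final

set_option autoImplicit false

namespace Pool.Agent.Results.MP_92a118_co.AUnique

open Pool.Agent.H373Z.Gor

/-- For every `s ≥ 1`, a Gorenstein polytope of dimension `d = 3 s - 1` and degree
`s = d + 1 - r` (`r` the codegree) which is not a lattice pyramid is isomorphic to `Cs s`. -/
theorem result (s : ℕ) (hs : 1 ≤ s) (P : Set (Fin (3 * s - 1) → ℝ)) (r : ℕ)
    (hG : IsGorenstein P r) (hdeg : r + s = (3 * s - 1) + 1) (hpyr : ¬ IsLatticePyramid P) :
    LatticeIso P (Cs s) :=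
  main s hs P r hG hdeg hpyr

end Pool.Agent.Results.MP_92a118_co.AUnique
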